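import Mathlib

/-!
# The gcd recursion for prime triples: basic facts for the lower bound

`A n` is the value before step `n`, `g A n` the amount subtracted at step `n`.
-/

set_option autoImplicit false

namespace Pool.Agent.R701.GC

open Finset

/-- The 3-periodic sequence `2, 6, 0, 2, 6, 0, …` (indexed from 1). -/
def b (n : ℕ) : ℕ := if n % 3 = 1 then 2 else if n % 3 = 2 then 6 else 0

/-- the second argument of the gcd -/
def v (n : ℕ) : ℕ := n + b n

lemma le_v (n : ℕ) : n ≤ v n := by unfold v; omega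

lemma v_le (n : ℕ) : v n ≤ n + 6 := by unfold v b; split_ifs <;> omega

lemma v_ne (n : ℕ) : v n ≠ v (n + 1) := by unfold v b; split_ifs <;> omega

/-- the amount subtracted at step `n` -/
def g (A : ℕ → ℕ) (n : ℕ) : ℕ := Nat.gcd (A n) (v n)

/-- the descent, with its zero `f` at most `K s`, `s` the integer square root -/
structure Dat (K s N f : ℕ) (A : ℕ → ℕ) : Prop where
  K1 : 1 ≤ K
  s1 : 100 ≤ s
  f2 : 2 ≤ f
  fK : f ≤ K * s
  N1 : s * s ≤ N
  N2 : N ≤ 2 * (s * s)
  A2 : A 2 + 6 = N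
  Af : A (f + 1) = 0
  step : ∀ n, 2 ≤ n → n ≤ f → A (n + 1) + g A n = A n
  pos : ∀ n, 2 ≤ n → n ≤ f → 0 < A n

variable {K s N f : ℕ} {A : ℕ → ℕ}

lemma Dat.tele (h : Dat K s N f A) (m n : ℕ) (hm : 2 ≤ m) (hmn : m ≤ n) (hn : n ≤ f + 1) :
    A n + ∑ k ∈ Ico m n, g A k = A m := by
  induction n, hmn using Nat.le_induction with
  | base => simp
  | succ n hmn ih =>
    have h1 := ih (by omega)
    have h2 := h.step n (by omega) (by omega)
    rw [sum_Ico_succ_top hmn]
    omega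

lemma Dat.anti (h : Dat K s N f A) {m n : ℕ} (hm : 2 ≤ m) (hmn : m ≤ n) (hn : n ≤ f + 1) :
    A n ≤ A m := by
  have := h.tele m n hm hmn hn
  omega

lemma Dat.le_N (h : Dat K s N f A) {n : ℕ} (hn2 : 2 ≤ n) (hn : n ≤ f + 1) : A n ≤ N := by
  have := h.anti le_rfl hn2 hn
  have := h.A2
  omega

lemma Dat.g_pos (_h : Dat K s N f A) {n : ℕ} (hn : 1 ≤ n) : 0 < g A n := by
  unfold g
  exact Nat.gcd_pos_of_pos_right _ (by have := le_v n; omega)

lemma g_dvd_A (n : ℕ) : g A n ∣ A n := Nat.gcd_dvd_left _ _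
lemma g_dvd_v (n : ℕ) : g A n ∣ v n := Nat.gcd_dvd_right _ _

lemma g_le_v (n : ℕ) (hn : 1 ≤ n) : g A n ≤ v n :=
  Nat.le_of_dvd (by have := le_v n; omega) (g_dvd_v n)

lemma Dat.v_le_Ks (h : Dat K s N f A) {n : ℕ} (hn : n ≤ f) : v n ≤ 2 * (K * s) := by
  have h1 := v_le n
  have h2 := h.fK
  have h3 := h.s1
  have h4 : s ≤ K * s := Nat.le_mul_of_pos_left s h.K1
  omega

/-- the window of the steps in the bulk -/
def W (s N f : ℕ) (A : ℕ → ℕ) : Finset ℕ := (Icc 2 f).filter (fun n => s ≤ 2 * n ∧ N ≤ 8 * A n)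

lemma mem_W {n : ℕ} : n ∈ W s N f A ↔ (2 ≤ n ∧ n ≤ f) ∧ s ≤ 2 * n ∧ N ≤ 8 * A n := by
  simp [W]

lemma Dat.convex (h : Dat K s N f A) {n k n' : ℕ} (hn : n ∈ W s N f A) (hn' : n' ∈ W s N f A)
    (h1 : n ≤ k) (h2 : k ≤ n') : k ∈ W s N f A := by
  rw [mem_W] at *
  have := h.anti (m := k) (n := n') (by omega) h2 (by omega)
  refine ⟨⟨by omega, by omega⟩, by omega, by omega⟩

/-- the steps of the window with gcd at least `s / M` -/
def G (s N f : ℕ) (A : ℕ → ℕ) (M : ℕ) : Finset ℕ := (W s N f A).filter (fun n => s ≤ M * g A n)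

lemma mem_G {M n : ℕ} : n ∈ G s N f A M ↔ n ∈ W s N f A ∧ s ≤ M * g A n := by
  simp [G]

lemma G_mono {M M' : ℕ} (hM : M ≤ M') : G s N f A M ⊆ G s N f A M' := by
  intro n hn
  rw [mem_G] at *
  exact ⟨hn.1, hn.2.trans (Nat.mul_le_mul_right _ hM)⟩

lemma card_G_le {M : ℕ} : (G s N f A M).card ≤ f := by
  have h1 : G s N f A M ⊆ Icc 2 f := (filter_subset _ _).trans (filter_subset _ _)
  have := card_le_card h1
  simp at this
  omega

/-- many steps have a gcd at least `s / (8K)` -/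
lemma Dat.many (h : Dat K s N f A) (M : ℕ) (hM : 8 * K ≤ M) :
    s ≤ 8 * K * (G s N f A M).card := by
  have hK := h.K1
  have hs := h.s1
  have htele := h.tele 2 (f + 1) le_rfl (by have := h.f2; omega) le_rfl
  rw [h.Af, zero_add] at htele
  have hA2 := h.A2
  have hIco : Ico 2 (f + 1) = Icc 2 f := by
    ext x
    rw [mem_Ico, mem_Icc]
    omega
  rw [hIco] at htele
  -- four parts
  set S1 := (Icc 2 f).filter (fun n => 2 * n < s) with hS1
  set S2 := (Icc 2 f).filter (fun n => 8 * A n < N) with hS2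
  set S3 := (Icc 2 f).filter (fun n => M * g A n < s) with hS3
  have hcov : Icc 2 f ⊆ ((S1 ∪ S2) ∪ S3) ∪ G s N f A M := by
    intro n hn
    have hn' := hn
    rw [mem_Icc] at hn'
    simp only [mem_union, hS1, hS2, hS3, mem_filter, mem_G, mem_W]
    by_cases h1 : 2 * n < s
    · exact Or.inl (Or.inl (Or.inl ⟨hn, h1⟩))
    by_cases h2 : 8 * A n < N
    · exact Or.inl (Or.inl (Or.inr ⟨hn, h2⟩))
    by_cases h3 : M * g A n < s
    · exact Or.inl (Or.inr ⟨hn, h3⟩)
    exact Or.inr ⟨⟨hn', by omega, by omega⟩, by omega⟩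
  have hsum : ∑ n ∈ Icc 2 f, g A n ≤ ((∑ n ∈ S1, g A n + ∑ n ∈ S2, g A n) + ∑ n ∈ S3, g A n)
      + ∑ n ∈ G s N f A M, g A n := by
    calc ∑ n ∈ Icc 2 f, g A n ≤ ∑ n ∈ ((S1 ∪ S2) ∪ S3) ∪ G s N f A M, g A n :=
          sum_le_sum_of_subset hcov
      _ ≤ ∑ n ∈ (S1 ∪ S2) ∪ S3, g A n + ∑ n ∈ G s N f A M, g A n := by
          rw [← sum_union_inter]; exact Nat.le_add_right _ _
      _ ≤ (∑ n ∈ S1 ∪ S2, g A n + ∑ n ∈ S3, g A n) + ∑ n ∈ G s N f A M, g A n := by
          gcongr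
          rw [← sum_union_inter (s₁ := S1 ∪ S2)]; exact Nat.le_add_right _ _
      _ ≤ _ := by
          gcongr
          rw [← sum_union_inter (s₁ := S1)]; exact Nat.le_add_right _ _
  have b1 : 4 * ∑ n ∈ S1, g A n ≤ s * (s + 12) := by
    have hc : 2 * S1.card ≤ s := by
      have : S1 ⊆ Ico 2 ((s + 1) / 2) := by
        intro n hn
        rw [hS1, mem_filter, mem_Icc] at hn
        rw [mem_Ico]
        omega
      have := card_le_card this
      rw [Nat.card_Ico] at this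
      omega
    have hb : ∀ n ∈ S1, 2 * g A n ≤ s + 12 := by
      intro n hn
      rw [hS1, mem_filter, mem_Icc] at hn
      have h1 := g_le_v (A := A) n (by omega)
      have h2 := v_le n
      omega
    have : ∑ n ∈ S1, 2 * g A n ≤ S1.card * (s + 12) := by
      rw [← smul_eq_mul]
      exact sum_le_card_nsmul _ _ _ hb
    rw [← mul_sum] at this
    nlinarith
  have b2 : 8 * ∑ n ∈ S2, g A n ≤ N := by
    rcases S2.eq_empty_or_nonempty with he | hne
    · rw [he]; simp
    · set m := S2.min' hne with hm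
      have hmm : m ∈ S2 := S2.min'_mem hne
      have hmm' := hmm
      rw [hS2, mem_filter, mem_Icc] at hmm'
      have hsub : S2 ⊆ Ico m (f + 1) := by
        intro n hn
        have h1 : m ≤ n := S2.min'_le n hn
        rw [hS2, mem_filter, mem_Icc] at hn
        rw [mem_Ico]
        omega
      have h1 := sum_le_sum_of_subset (f := g A) hsub
      have h2 := h.tele m (f + 1) (by omega) (by omega) le_rfl
      omega
  have b3 : 8 * ∑ n ∈ S3, g A n ≤ s * s := by
    have hb : ∀ n ∈ S3, M * g A n ≤ s := by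
      intro n hn
      rw [hS3, mem_filter, mem_Icc] at hn
      omega
    have h1 : ∑ n ∈ S3, M * g A n ≤ S3.card * s := by
      rw [← smul_eq_mul]
      exact sum_le_card_nsmul _ _ _ hb
    have hc : S3.card ≤ f := by
      have h0 : S3 ⊆ Icc 2 f := filter_subset _ _
      have := card_le_card h0
      rw [Nat.card_Icc] at this
      omega
    rw [← mul_sum] at h1
    have h2 : 8 * K * ∑ n ∈ S3, g A n ≤ K * (s * s) := by
      calc 8 * K * ∑ n ∈ S3, g A n ≤ M * ∑ n ∈ S3, g A n := Nat.mul_le_mul_right _ hM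
        _ ≤ S3.card * s := h1
        _ ≤ (K * s) * s := Nat.mul_le_mul_right _ (hc.trans h.fK)
        _ = K * (s * s) := by ring
    have h3 : K * (8 * ∑ n ∈ S3, g A n) ≤ K * (s * s) := by
      calc _ = 8 * K * ∑ n ∈ S3, g A n := by ring
        _ ≤ _ := h2
    exact Nat.le_of_mul_le_mul_left h3 (by omega)
  have b4 : ∑ n ∈ G s N f A M, g A n ≤ (G s N f A M).card * (2 * (K * s)) := by
    rw [← smul_eq_mul]
    apply sum_le_card_nsmul
    intro n hn
    rw [mem_G, mem_W] at hn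
    exact (g_le_v n (by omega)).trans (h.v_le_Ks (by omega))
  have hN1 := h.N1
  set c := (G s N f A M).card with hc
  -- N - 6 ≤ s(s+12)/4 + N/8 + s²/8 + c * 2Ks
  have h5 : 8 * N ≤ 2 * (s * (s + 12)) + N + s * s + 8 * (c * (2 * (K * s))) + 48 := by
    linarith
  have h6 : s * s ≤ (8 * K * c) * s := by
    nlinarith
  exact Nat.le_of_mul_le_mul_right h6 (by omega)

end Pool.Agent.R701.GC
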