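import Mathlib
import Pool.Agent.R701.GC.Basic

/-!
# The gcd recursion for prime triples: pairs of near steps with large gcd
-/

set_option autoImplicit false

namespace Pool.Agent.R701.GC

open Finset

variable {K s N f : ℕ} {A : ℕ → ℕ}

/-- the relation attached to two near large steps without medium steps in between -/
def Rel (K s L M M' Aa : ℕ) (A : ℕ → ℕ) (n : ℕ) (η : ℤ) (μ μ' : ℕ) (m : ℤ) (S : ℕ) : Prop :=
  η ≠ 0 ∧ |η| ≤ (L : ℤ) + 6 ∧ 1 ≤ μ ∧ μ ≤ 2 * K * M ∧ 1 ≤ μ' ∧ μ' ≤ 2 * K * M ∧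
    |m| ≤ (Aa : ℤ) ∧ M' * S ≤ L * s ∧
    η * μ * μ' * (A n : ℤ) = (m - μ') * (v n : ℤ) ^ 2 + (m * η - μ * μ' * S) * (v n : ℤ)

/-- the steps of `G M` followed within `L` by another one, with no step of `G M'` in between -/
noncomputable def B (s N f : ℕ) (A : ℕ → ℕ) (L M M' : ℕ) : Finset ℕ :=
  open Classical in
  (G s N f A M).filter (fun n => ∃ n' ∈ G s N f A M, n < n' ∧ n' ≤ n + L ∧
    ∀ k, n < k → k < n' → M' * g A k < s)

lemma Dat.rel (h : Dat K s N f A) (L M M' Aa : ℕ) (hL : 1 ≤ L)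
    (hM1 : L * M ≤ M') (hM2 : 8 * K ^ 2 * M ^ 2 * L < M')
    (hAa : 4 * K * M + 2 * (L + 6) * M ^ 2 ≤ Aa)
    (n n' : ℕ) (hn : n ∈ G s N f A M) (hn' : n' ∈ G s N f A M) (h1 : n < n') (h2 : n' ≤ n + L)
    (h3 : ∀ k, n < k → k < n' → M' * g A k < s) :
    ∃ (η : ℤ) (μ μ' : ℕ) (m : ℤ) (S : ℕ), Rel K s L M M' Aa A n η μ μ' m S := by
  rw [mem_G, mem_W] at hn hn'
  obtain ⟨⟨⟨hn2, hnf⟩, hns, hnA⟩, hng⟩ := hn
  obtain ⟨⟨⟨hn2', hnf'⟩, hns', hnA'⟩, hng'⟩ := hn'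
  have hK := h.K1
  have hs := h.s1
  obtain ⟨μ, hμ⟩ := g_dvd_v (A := A) n
  obtain ⟨μ', hμ'⟩ := g_dvd_v (A := A) n'
  obtain ⟨α, hα⟩ := g_dvd_A (A := A) n
  obtain ⟨α', hα'⟩ := g_dvd_A (A := A) n'
  have hg := h.g_pos (n := n) (by omega)
  have hg' := h.g_pos (n := n') (by omega)
  set S := ∑ k ∈ Ico (n + 1) n', g A k with hS
  have hstep := h.step n hn2 hnf
  have htele := h.tele (n + 1) n' (by omega) (by omega) (by omega)
  rw [← hS] at htele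
  have hv := h.v_le_Ks hnf
  have hv' := h.v_le_Ks hnf'
  have hvn := le_v n
  have hvn' := le_v n'
  have hμpos : 1 ≤ μ := by
    rcases Nat.eq_zero_or_pos μ with h0 | h0
    · rw [h0, mul_zero] at hμ; omega
    · exact h0
  have hμpos' : 1 ≤ μ' := by
    rcases Nat.eq_zero_or_pos μ' with h0 | h0
    · rw [h0, mul_zero] at hμ'; omega
    · exact h0
  have bnd : ∀ (n μ : ℕ), v n = g A n * μ → v n ≤ 2 * (K * s) → s ≤ M * g A n → μ ≤ 2 * K * M := by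
    intro n μ e1 e2 e3
    have : s * μ ≤ s * (2 * K * M) := by
      calc s * μ ≤ (M * g A n) * μ := Nat.mul_le_mul_right _ e3
        _ = M * (g A n * μ) := by ring
        _ = M * v n := by rw [e1]
        _ ≤ M * (2 * (K * s)) := Nat.mul_le_mul_left _ e2
        _ = s * (2 * K * M) := by ring
    exact Nat.le_of_mul_le_mul_left this (by omega)
  have hμb := bnd n μ hμ hv hng
  have hμb' := bnd n' μ' hμ' hv' hng'
  -- bound for `S`
  have hSb : M' * S ≤ L * s := by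
    rw [hS, mul_sum]
    calc ∑ k ∈ Ico (n + 1) n', M' * g A k ≤ (Ico (n + 1) n').card • s := by
          apply sum_le_card_nsmul
          intro k hk
          rw [mem_Ico] at hk
          exact (h3 k (by omega) (by omega)).le
      _ = (n' - (n + 1)) * s := by rw [Nat.card_Ico, smul_eq_mul]
      _ ≤ L * s := Nat.mul_le_mul_right _ (by omega)
  have hSg : S ≤ g A n := by
    have : M' * S ≤ M' * g A n := by
      calc M' * S ≤ L * s := hSb
        _ ≤ L * (M * g A n) := Nat.mul_le_mul_left _ hng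
        _ = (L * M) * g A n := by ring
        _ ≤ M' * g A n := Nat.mul_le_mul_right _ hM1
    exact Nat.le_of_mul_le_mul_left this (by omega)
  -- η
  set η : ℤ := (v n' : ℤ) - v n with hη
  have hηb : |η| ≤ (L : ℤ) + 6 := by
    have a1 := v_le n
    have a2 := v_le n'
    rw [abs_le]
    constructor <;> omega
  -- m
  set m : ℤ := (μ' : ℤ) * α - μ * α' with hm
  have e1 : (A n' : ℤ) = A n - g A n - S := by
    have : A n' + S + g A n = A n := by omega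
    have : (A n' : ℤ) + S + g A n = A n := by exact_mod_cast this
    linarith
  have c1 : (v n : ℤ) = g A n * μ := by exact_mod_cast hμ
  have c2 : (v n' : ℤ) = g A n' * μ' := by exact_mod_cast hμ'
  have c3 : (A n : ℤ) = g A n * α := by exact_mod_cast hα
  have c4 : (A n' : ℤ) = g A n' * α' := by exact_mod_cast hα'
  have key : (g A n : ℤ) * g A n' * m = (g A n + S) * v n + η * A n := by
    have : (g A n : ℤ) * g A n' * m = A n * v n' - A n' * v n := by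
      rw [hm]
      calc (g A n : ℤ) * g A n' * (μ' * α - μ * α')
          = (g A n * α) * (g A n' * μ') - (g A n' * α') * (g A n * μ) := by ring
        _ = A n * v n' - A n' * v n := by rw [← c1, ← c2, ← c3, ← c4]
    rw [this, e1, hη]
    ring
  -- bound for m
  have hmb : |m| ≤ (Aa : ℤ) := by
    have hgZ : (0 : ℤ) < g A n := by exact_mod_cast hg
    have hgZ' : (0 : ℤ) < g A n' := by exact_mod_cast hg'
    have hAn : A n ≤ N := h.le_N hn2 (by omega)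
    have hN2 := h.N2
    have p1 : (g A n + S) * v n ≤ (4 * K * M) * (g A n * g A n') := by
      calc (g A n + S) * v n ≤ (2 * g A n) * (2 * (K * s)) :=
            Nat.mul_le_mul (by omega) hv
        _ ≤ (2 * g A n) * (2 * (K * (M * g A n'))) := by gcongr
        _ = (4 * K * M) * (g A n * g A n') := by ring
    have p2 : A n ≤ 2 * M ^ 2 * (g A n * g A n') := by
      calc A n ≤ 2 * (s * s) := hAn.trans hN2
        _ ≤ 2 * ((M * g A n) * (M * g A n')) := by gcongr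
        _ = _ := by ring
    have q1 : ((g A n : ℤ) + S) * v n ≤ (4 * K * M) * (g A n * g A n') := by exact_mod_cast p1
    have q2 : (A n : ℤ) ≤ 2 * M ^ 2 * (g A n * g A n') := by exact_mod_cast p2
    have q3 : |(g A n : ℤ) * g A n' * m| ≤ (g A n * g A n') * Aa := by
      rw [key]
      calc |((g A n : ℤ) + S) * v n + η * A n| ≤ |((g A n : ℤ) + S) * v n| + |η * A n| :=
            abs_add_le _ _
        _ = ((g A n : ℤ) + S) * v n + |η| * A n := by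
            rw [abs_of_nonneg (a := ((g A n : ℤ) + S) * v n) (by positivity), abs_mul,
              abs_of_nonneg (a := (A n : ℤ)) (by positivity)]
        _ ≤ (4 * K * M) * (g A n * g A n') + (L + 6) * (2 * M ^ 2 * (g A n * g A n')) := by
            gcongr
        _ = (g A n * g A n') * (4 * K * M + 2 * (L + 6) * M ^ 2) := by ring
        _ ≤ (g A n * g A n') * Aa := by
            gcongr
            exact_mod_cast hAa
    rw [abs_mul, abs_of_pos (a := (g A n : ℤ) * g A n') (by positivity)] at q3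
    exact le_of_mul_le_mul_left q3 (by positivity)
  -- final relation
  have rel : η * μ * μ' * (A n : ℤ) = (m - μ') * (v n : ℤ) ^ 2 + (m * η - μ * μ' * S) * (v n : ℤ) := by
    have t1 : (v n' : ℤ) = v n + η := by rw [hη]; ring
    have t2 : (μ : ℤ) * μ' * (g A n * g A n' * m) = v n * v n' * m := by
      rw [c1, c2]; ring
    rw [key] at t2
    have t3 : (μ : ℤ) * μ' * ((g A n + S) * v n + η * A n)
        = μ' * (v n : ℤ) ^ 2 + μ * μ' * S * v n + η * μ * μ' * A n := by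
      calc (μ : ℤ) * μ' * ((g A n + S) * v n + η * A n)
          = μ' * (g A n * μ) * v n + μ * μ' * S * v n + η * μ * μ' * A n := by ring
        _ = μ' * (v n : ℤ) ^ 2 + μ * μ' * S * v n + η * μ * μ' * A n := by rw [← c1]; ring
    rw [t3, t1] at t2
    linarith
  refine ⟨η, μ, μ', m, S, ?_, hηb, hμpos, hμb, hμpos', hμb', hmb, hSb, rel⟩
  -- η ≠ 0
  intro hη0
  rw [hη0] at rel
  have hvpos : (0 : ℤ) < v n := by exact_mod_cast (show 0 < v n by omega)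
  have r1 : (v n : ℤ) * ((m - μ') * v n) = (v n : ℤ) * (μ * μ' * S) := by
    linear_combination -rel
  have r2 : (m - μ') * (v n : ℤ) = μ * μ' * S := mul_left_cancel₀ hvpos.ne' r1
  rcases Nat.eq_zero_or_pos S with hS0 | hS0
  · -- no step in between
    have : n' = n + 1 := by
      by_contra hne
      have hmem : n + 1 ∈ Ico (n + 1) n' := by rw [mem_Ico]; omega
      have h5 : g A (n + 1) ≤ S := single_le_sum (f := g A) (fun _ _ => Nat.zero_le _) hmem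
      have h6 := h.g_pos (n := n + 1) (by omega)
      omega
    have h7 := v_ne n
    rw [this] at hη
    apply h7
    have : (v (n + 1) : ℤ) = v n := by linarith
    exact_mod_cast this.symm
  · have hdvd : v n ∣ μ * μ' * S := by
      have : (v n : ℤ) ∣ μ * μ' * S := ⟨m - μ', by rw [← r2]; ring⟩
      exact_mod_cast this
    have hle : v n ≤ μ * μ' * S := Nat.le_of_dvd (by positivity) hdvd
    have h8 : M' * s ≤ (8 * K ^ 2 * M ^ 2 * L) * s := by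
      calc M' * s ≤ M' * (2 * v n) := Nat.mul_le_mul_left _ (by omega)
        _ ≤ M' * (2 * (μ * μ' * S)) := by gcongr
        _ = 2 * (μ * μ') * (M' * S) := by ring
        _ ≤ 2 * ((2 * K * M) * (2 * K * M)) * (L * s) := by gcongr
        _ = _ := by ring
    have := Nat.le_of_mul_le_mul_right h8 (by omega)
    omega

lemma lowerD (s K V₁ V₂ a₁ a₂ : ℝ) (hs : 0 < s) (hK : 1 ≤ K) (V1s : s / 2 ≤ V₁) (V12 : V₁ < V₂)
    (V1u : V₁ ≤ 2 * (K * s)) (V2u : V₂ ≤ 2 * (K * s)) (hAR : a₂ ≤ a₁) (hA1 : s ^ 2 / 8 ≤ a₁) :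
    (V₂ - V₁) / (64 * K ^ 3 * s) ≤ a₁ / V₁ ^ 2 - a₂ / V₂ ^ 2 := by
  have V1p : 0 < V₁ := by linarith [half_pos hs]
  have V2p : 0 < V₂ := by linarith
  have a1p : 0 < a₁ := by nlinarith
  have x1 : a₁ / V₁ ^ 2 - a₁ / V₂ ^ 2 ≤ a₁ / V₁ ^ 2 - a₂ / V₂ ^ 2 := by
    have : a₂ / V₂ ^ 2 ≤ a₁ / V₂ ^ 2 := by gcongr
    linarith
  have x2 : a₁ / V₁ ^ 2 - a₁ / V₂ ^ 2 = a₁ * (V₂ - V₁) * (V₂ + V₁) / (V₁ ^ 2 * V₂ ^ 2) := by
    field_simp
    ring
  have y4 : 0 ≤ V₂ - V₁ := by linarith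
  have x3 : a₁ * (V₂ - V₁) / (V₁ ^ 2 * V₂) ≤ a₁ * (V₂ - V₁) * (V₂ + V₁) / (V₁ ^ 2 * V₂ ^ 2) := by
    rw [div_le_div_iff₀ (by positivity) (by positivity)]
    have : 0 ≤ a₁ * (V₂ - V₁) * (V₁ ^ 2 * V₂) * V₁ := by positivity
    nlinarith
  have x4 : (V₂ - V₁) / (64 * K ^ 3 * s) ≤ a₁ * (V₂ - V₁) / (V₁ ^ 2 * V₂) := by
    rw [div_le_div_iff₀ (by positivity) (by positivity)]
    have y1 : V₁ ^ 2 * V₂ ≤ (2 * (K * s)) ^ 2 * (2 * (K * s)) := by gcongr
    have y2 : (2 * (K * s)) ^ 2 * (2 * (K * s)) = s ^ 2 / 8 * (64 * K ^ 3 * s) := by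
      ring
    have y3 : s ^ 2 / 8 * (64 * K ^ 3 * s) ≤ a₁ * (64 * K ^ 3 * s) := by
      gcongr
    calc (V₂ - V₁) * (V₁ ^ 2 * V₂) ≤ (V₂ - V₁) * (a₁ * (64 * K ^ 3 * s)) :=
          mul_le_mul_of_nonneg_left (y1.trans (y2.le.trans y3)) y4
      _ = _ := by ring
  linarith

lemma upperD (η μ μ' m V₁ V₂ S₁ S₂ a₁ a₂ t u Aa : ℝ) (V1p : 0 < V₁) (V2p : 0 < V₂)
    (E1 : η * μ * μ' * a₁ = (m - μ') * V₁ ^ 2 + (m * η - μ * μ' * S₁) * V₁)
    (E2 : η * μ * μ' * a₂ = (m - μ') * V₂ ^ 2 + (m * η - μ * μ' * S₂) * V₂)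
    (hη : 1 ≤ |η|) (hμ : 1 ≤ μ) (hμ' : 1 ≤ μ') (hm : |m| ≤ Aa)
    (i1 : 1 / V₁ ≤ t) (i2 : 1 / V₂ ≤ t)
    (s1 : S₁ / V₁ ≤ u) (s2 : S₂ / V₂ ≤ u) (s1p : 0 ≤ S₁ / V₁) (s2p : 0 ≤ S₂ / V₂) :
    a₁ / V₁ ^ 2 - a₂ / V₂ ^ 2 ≤ Aa * t + u := by
  have F1 : η * μ * μ' * (a₁ / V₁ ^ 2) = (m - μ') + (m * η - μ * μ' * S₁) / V₁ := by
    have : η * μ * μ' * (a₁ / V₁ ^ 2) = (η * μ * μ' * a₁) / V₁ ^ 2 := by
      ring
    rw [this, E1]
    field_simp
  have F2 : η * μ * μ' * (a₂ / V₂ ^ 2) = (m - μ') + (m * η - μ * μ' * S₂) / V₂ := by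
    have : η * μ * μ' * (a₂ / V₂ ^ 2) = (η * μ * μ' * a₂) / V₂ ^ 2 := by
      ring
    rw [this, E2]
    field_simp
  set Δ : ℝ := a₁ / V₁ ^ 2 - a₂ / V₂ ^ 2 with hΔ
  have F3 : η * μ * μ' * Δ = m * η * (1 / V₁ - 1 / V₂) - μ * μ' * (S₁ / V₁ - S₂ / V₂) := by
    rw [hΔ, mul_sub, F1, F2]
    ring
  have i1p : 0 < 1 / V₁ := by positivity
  have i2p : 0 < 1 / V₂ := by positivity
  have hAa : 0 ≤ Aa := (abs_nonneg m).trans hm
  have ht : 0 ≤ t := i1p.le.trans i1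
  have hu : 0 ≤ u := s1p.trans s1
  have d1 : |1 / V₁ - 1 / V₂| ≤ t := by rw [abs_le]; constructor <;> linarith
  have d2 : |S₁ / V₁ - S₂ / V₂| ≤ u := by rw [abs_le]; constructor <;> linarith
  have G1 : |η| * μ * μ' * |Δ| ≤ |η| * μ * μ' * (Aa * t + u) := by
    have l1 : |η * μ * μ' * Δ| = |η| * μ * μ' * |Δ| := by
      rw [abs_mul, abs_mul, abs_mul, abs_of_pos (by linarith : (0 : ℝ) < μ),
        abs_of_pos (by linarith : (0 : ℝ) < μ')]
    rw [← l1, F3]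
    calc |m * η * (1 / V₁ - 1 / V₂) - μ * μ' * (S₁ / V₁ - S₂ / V₂)|
        ≤ |m * η * (1 / V₁ - 1 / V₂)| + |μ * μ' * (S₁ / V₁ - S₂ / V₂)| := abs_sub _ _
      _ = |m| * |η| * |1 / V₁ - 1 / V₂| + μ * μ' * |S₁ / V₁ - S₂ / V₂| := by
          rw [abs_mul, abs_mul, abs_mul, abs_mul, abs_of_pos (by linarith : (0 : ℝ) < μ),
            abs_of_pos (by linarith : (0 : ℝ) < μ')]
      _ ≤ Aa * |η| * t + μ * μ' * u := by gcongr
      _ ≤ |η| * μ * μ' * (Aa * t) + |η| * μ * μ' * u := by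
          have hmm : (1 : ℝ) ≤ μ * μ' := by nlinarith
          have z1 : Aa * |η| * t ≤ |η| * μ * μ' * (Aa * t) := by
            have h0 : (0 : ℝ) ≤ |η| * (Aa * t) := by positivity
            calc Aa * |η| * t = (|η| * (Aa * t)) * 1 := by ring
              _ ≤ (|η| * (Aa * t)) * (μ * μ') := by gcongr
              _ = _ := by ring
          have z2 : μ * μ' * u ≤ |η| * μ * μ' * u := by
            have h0 : (0 : ℝ) ≤ μ * μ' * u := by positivity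
            calc μ * μ' * u = 1 * (μ * μ' * u) := by ring
              _ ≤ |η| * (μ * μ' * u) := by gcongr
              _ = _ := by ring
          linarith
      _ = _ := by ring
  have hpos : 0 < |η| * μ * μ' := by
    have : 0 < |η| := by linarith
    have : 0 < μ := by linarith
    have : 0 < μ' := by linarith
    positivity
  exact (le_abs_self _).trans (le_of_mul_le_mul_left G1 hpos)

lemma aux_shift (n₁ n₂ v₁ v₂ X Q : ℕ) (h1 : v₁ ≤ n₁ + 6) (h2 : n₂ ≤ v₂)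
    (h : n₁ + (6 + X + Q) < n₂) : v₁ + X + Q + 1 ≤ v₂ := by omega

/-- two steps with the same data are near -/
lemma Dat.near (h : Dat K s N f A) (L M M' Aa : ℕ) (hM' : 1 ≤ M')
    (n₁ n₂ : ℕ) (h1 : n₁ ∈ W s N f A) (h2 : n₂ ∈ W s N f A) (hlt : n₁ < n₂)
    (η : ℤ) (μ μ' : ℕ) (m : ℤ) (S₁ S₂ : ℕ)
    (r1 : Rel K s L M M' Aa A n₁ η μ μ' m S₁) (r2 : Rel K s L M M' Aa A n₂ η μ μ' m S₂) :
    n₂ ≤ n₁ + (6 + 256 * K ^ 3 * Aa + 256 * K ^ 3 * L * s / M') := by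
  rw [mem_W] at h1 h2
  obtain ⟨⟨h12, h1f⟩, h1s, h1A⟩ := h1
  obtain ⟨⟨h22, h2f⟩, h2s, h2A⟩ := h2
  obtain ⟨hη, -, hμ, -, hμ', -, hm, hS1, e1⟩ := r1
  obtain ⟨-, -, -, -, -, -, -, hS2, e2⟩ := r2
  have hK := h.K1
  have hs := h.s1
  have a1 := v_le n₁
  have a2 := le_v n₂
  have a3 := le_v n₁
  rcases Nat.lt_or_ge (v n₁) (v n₂) with hv | hv
  swap
  · refine (show n₂ ≤ n₁ + 6 by omega).trans (Nat.add_le_add_left ?_ _)
    rw [add_assoc]
    exact Nat.le_add_right _ _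
  have hA : A n₂ ≤ A n₁ := h.anti h12 hlt.le (by omega)
  -- real numbers
  have hN1 := h.N1
  have w1 := h.v_le_Ks h1f
  have w2 := h.v_le_Ks h2f
  have hsR : (0 : ℝ) < s := by exact_mod_cast (show 0 < s by omega)
  have hKR : (1 : ℝ) ≤ K := by exact_mod_cast hK
  have hM'R : (1 : ℝ) ≤ M' := by exact_mod_cast hM'
  have V1s : (s : ℝ) / 2 ≤ v n₁ := by
    have : (s : ℝ) ≤ 2 * (v n₁ : ℝ) := by exact_mod_cast (show s ≤ 2 * v n₁ by omega)
    linarith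
  have V2s : (s : ℝ) / 2 ≤ v n₂ := by
    have : (s : ℝ) ≤ 2 * (v n₂ : ℝ) := by exact_mod_cast (show s ≤ 2 * v n₂ by omega)
    linarith
  have V1p : (0 : ℝ) < v n₁ := by linarith [half_pos hsR]
  have V2p : (0 : ℝ) < v n₂ := by linarith [half_pos hsR]
  have V1u : (v n₁ : ℝ) ≤ 2 * (K * s) := by exact_mod_cast w1
  have V2u : (v n₂ : ℝ) ≤ 2 * (K * s) := by exact_mod_cast w2
  have V12 : (v n₁ : ℝ) < v n₂ := by exact_mod_cast hv
  have E1 : (η : ℝ) * μ * μ' * (A n₁ : ℝ)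
      = (m - μ') * (v n₁ : ℝ) ^ 2 + (m * η - μ * μ' * S₁) * (v n₁ : ℝ) := by
    exact_mod_cast e1
  have E2 : (η : ℝ) * μ * μ' * (A n₂ : ℝ)
      = (m - μ') * (v n₂ : ℝ) ^ 2 + (m * η - μ * μ' * S₂) * (v n₂ : ℝ) := by
    exact_mod_cast e2
  have hηR : (1 : ℝ) ≤ |(η : ℝ)| := by
    have : (1 : ℤ) ≤ |η| := Int.one_le_abs hη
    exact_mod_cast this
  have hμR : (1 : ℝ) ≤ μ := by exact_mod_cast hμ
  have hμR' : (1 : ℝ) ≤ μ' := by exact_mod_cast hμ'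
  have hmR : |(m : ℝ)| ≤ Aa := by exact_mod_cast hm
  have i1 : 1 / (v n₁ : ℝ) ≤ 2 / s := by
    rw [div_le_div_iff₀ V1p hsR]; linarith
  have i2 : 1 / (v n₂ : ℝ) ≤ 2 / s := by
    rw [div_le_div_iff₀ V2p hsR]; linarith
  have sb : ∀ (S : ℕ) (V : ℝ), M' * S ≤ L * s → (s : ℝ) / 2 ≤ V → 0 < V →
      (S : ℝ) / V ≤ 2 * L / M' := by
    intro S V hS hV hVp
    have hSR : (M' : ℝ) * S ≤ L * s := by exact_mod_cast hS
    rw [div_le_div_iff₀ hVp (by linarith)]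
    have : (L : ℝ) * s ≤ 2 * L * V := by
      have : (0 : ℝ) ≤ L := Nat.cast_nonneg _
      nlinarith
    linarith
  have s1 := sb S₁ (v n₁) hS1 V1s V1p
  have s2 := sb S₂ (v n₂) hS2 V2s V2p
  have s1p : (0 : ℝ) ≤ S₁ / (v n₁ : ℝ) := by positivity
  have s2p : (0 : ℝ) ≤ S₂ / (v n₂ : ℝ) := by positivity
  have U := upperD η μ μ' m (v n₁) (v n₂) S₁ S₂ (A n₁) (A n₂) (2 / s) (2 * L / M') Aa V1p V2p
    E1 E2 hηR hμR hμR' hmR i1 i2 s1 s2 s1p s2p
  have hAR : (A n₂ : ℝ) ≤ A n₁ := by exact_mod_cast hA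
  have hA1 : (s : ℝ) ^ 2 / 8 ≤ A n₁ := by
    have : s * s ≤ 8 * A n₁ := hN1.trans h1A
    have : (s : ℝ) * s ≤ 8 * A n₁ := by exact_mod_cast this
    nlinarith
  have D := lowerD s K (v n₁) (v n₂) (A n₁) (A n₂) hsR hKR V1s V12 V1u V2u hAR hA1
  have G4 := D.trans U
  rw [div_le_iff₀ (by positivity)] at G4
  have G5 : (v n₂ : ℝ) - v n₁ ≤ 128 * K ^ 3 * Aa + 128 * K ^ 3 * L * s / M' := by
    have : (Aa * (2 / s) + 2 * L / M') * (64 * K ^ 3 * s)
        = 128 * (K : ℝ) ^ 3 * Aa + 128 * K ^ 3 * L * s / M' := by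
      field_simp
      ring
    linarith
  have G6 : (v n₂ : ℝ) - v n₁ ≤ 256 * K ^ 3 * Aa + 256 * K ^ 3 * L * s / M' := by
    have y1 : (0 : ℝ) ≤ 128 * K ^ 3 * Aa := by positivity
    have y2 : (0 : ℝ) ≤ 128 * (K : ℝ) ^ 3 * L * s / M' := by positivity
    have y3 : 256 * (K : ℝ) ^ 3 * L * s / M' = 2 * (128 * (K : ℝ) ^ 3 * L * s / M') := by ring
    rw [y3]
    linarith
  by_contra hcon
  push Not at hcon
  obtain ⟨Q, hQ⟩ : ∃ Q, Q = 256 * K ^ 3 * L * s / M' := ⟨_, rfl⟩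
  rw [← hQ] at hcon
  have hQ1 : 256 * K ^ 3 * L * s < M' * (Q + 1) := by
    rw [hQ]
    exact Nat.lt_mul_div_succ (256 * K ^ 3 * L * s) (show 0 < M' by omega)
  have hQ2 : 256 * (K : ℝ) ^ 3 * L * s / M' < Q + 1 := by
    rw [div_lt_iff₀ (by linarith)]
    have : (256 : ℝ) * K ^ 3 * L * s < M' * (Q + 1) := by exact_mod_cast hQ1
    linarith
  have hcon2 : v n₁ + 256 * K ^ 3 * Aa + Q + 1 ≤ v n₂ := aux_shift _ _ _ _ _ _ a1 a2 hcon
  have hcon3 : (v n₁ : ℝ) + 256 * K ^ 3 * Aa + Q + 1 ≤ v n₂ := by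
    exact_mod_cast hcon2
  linarith

end Pool.Agent.R701.GC
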